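import Pool.Agent.Lib.helper24.DivComp

set_option autoImplicit false

namespace Pool.Agent.Results.MP_d29ee2_al.Universal
open Pool.Agent.DivComp

universe u

/-- An ordered group that order-embeds in a divisible ordered group has a minimal divisible
completion mapping onto every minimal divisible completion over `G`. -/
theorem result (G : Type u) [Group G] [LinearOrder G] (_hG : IsOrdered G)
    (hD : ∃ (D : Type u) (_ : Group D) (_ : LinearOrder D) (j : G →* D), IsDivExt j) :
    ∃ (K : Type u) (_ : Group K) (_ : LinearOrder K) (ι : G →* K), IsMinComp ι ∧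
      ∀ (H : Type u) [Group H] [LinearOrder H] (κ : G →* H), IsMinComp κ →
        ∃ φ : K →* H, Function.Surjective φ ∧ ∀ g : G, φ (ι g) = κ g := by
  obtain ⟨D, gD, oD, j, hj⟩ := hD
  obtain ⟨K, hK, h⟩ := main (G := G) ⟨D, gD, oD, j, hj⟩
  refine ⟨K.H, K.grp, K.ord, K.ι, ⟨K.ok, hK⟩, ?_⟩
  intro H gH oH κ hκ
  exact h ⟨H, gH, oH, κ, hκ.1⟩ hκ.2

end Pool.Agent.Results.MP_d29ee2_al.Universal
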